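import Pool.Agent.H91.Nav.Chain

/-!
# MP_694c72_al: Navarro's inequality for principal blocks

The inequality holds when the normal subgroup `N` has a series of normal subgroups of `G` whose
factors are `p'`-groups, or `p`-groups on which every element of `G` acts trivially or without
nontrivial fixed points, or `p`-groups centralised by the derived subgroup of `G`.
-/

set_option autoImplicit false

namespace Pool.Agent.Results.MP_694c72_al.FixedPointFreeFactors

open H91.Nav

/-- For finite `G`, normal `N`, a prime `p`, `K` algebraically closed of characteristic `p`, and a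
series `⊥ = c 0 ≤ c 1 ≤ ... ≤ c n = N` of normal subgroups of `G` such that for each `i < n`
the index `|c (i+1) : c i|` is prime to `p`, or it is a power of `p` and either every `g` in `G`
acts on `c (i+1) / c i` trivially or without nontrivial fixed points, or the derived subgroup of
`G` acts trivially on `c (i+1) / c i`: the inequality `k(B_G) ≤ k(B_{G/N}) |N|_p` holds (in the
form of the frozen statement: `e` and `f` are the block idempotents of the principal blocks, and
`k` is the dimension of the centre of the block). -/
theorem result :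
    ∀ (G : Type) [Group G] [Finite G] (N : Subgroup G) [N.Normal] (p : ℕ) [Fact p.Prime]
      (K : Type) [Field K] [IsAlgClosed K] [CharP K p]
      (n : ℕ) (c : ℕ → Subgroup G),
      c 0 = ⊥ → c n = N → (∀ i, (c i).Normal) → (∀ i < n, c i ≤ c (i + 1)) →
      (∀ i < n, ¬ p ∣ (c i).relIndex (c (i + 1)) ∨
        ((∃ k, (c i).relIndex (c (i + 1)) = p ^ k) ∧
          ((∀ g : G, (∀ v ∈ c (i + 1), g * v * g⁻¹ * v⁻¹ ∈ c i) ∨
              (∀ v ∈ c (i + 1), g * v * g⁻¹ * v⁻¹ ∈ c i → v ∈ c i)) ∨
            ⁅commutator G, c (i + 1)⁆ ≤ c i))) →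
      ∀ (e : MonoidAlgebra K G) (f : MonoidAlgebra K (G ⧸ N)),
      (e ∈ Subalgebra.center K (MonoidAlgebra K G) ∧
        e * e = e ∧
        e * (∑ᶠ g : G, MonoidAlgebra.single g (1 : K)) ≠ 0 ∧
        ∀ x ∈ Subalgebra.center K (MonoidAlgebra K G),
          x * x = x → (x * e = e ∨ x * e = 0)) →
      (f ∈ Subalgebra.center K (MonoidAlgebra K (G ⧸ N)) ∧
        f * f = f ∧
        f * (∑ᶠ q : G ⧸ N, MonoidAlgebra.single q (1 : K)) ≠ 0 ∧
        ∀ x ∈ Subalgebra.center K (MonoidAlgebra K (G ⧸ N)),
          x * x = x → (x * f = f ∨ x * f = 0)) →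
      Module.finrank K
          (Submodule.map (LinearMap.mulRight K e)
            (Subalgebra.toSubmodule (Subalgebra.center K (MonoidAlgebra K G))))
        ≤ Module.finrank K
            (Submodule.map (LinearMap.mulRight K f)
              (Subalgebra.toSubmodule (Subalgebra.center K (MonoidAlgebra K (G ⧸ N)))))
          * p ^ (Nat.card N).factorization p := by
  intro G _ _ N hN p hp K _ _ _ n c h0 hn hnormal hmono hfac e f he hf
  classical
  letI : Fintype G := Fintype.ofFinite G
  letI : Fintype (G ⧸ N) := Fintype.ofFinite _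
  haveI : PerfectRing K p := inferInstance
  haveI := hnormal
  subst hn
  have h1 := NI.chain p K n c h0 hmono hfac n le_rfl
  have h2 := h1 inferInstance inferInstance e f (PB_of e he) (PB_of f hf)
  rw [map_eq_AA (PB_of e he), map_eq_AA (PB_of f hf)]
  rwa [QuotientGroup.ker_mk'] at h2

end Pool.Agent.Results.MP_694c72_al.FixedPointFreeFactors
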